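import Pool.Agent.Helper20.NS5.Goals3

/-!
# Packet NS5-CO2
-/

namespace Pool.Agent.Helper2.NS5

open Pool.Agent.Helper20.NS5

theorem exists_n (a δ : ℝ) (ha : 0 ≤ a) (hδ : 0 < δ) :
    ∃ n₀ : ℕ, ∀ n ≥ n₀, a * (n : ℝ) ≤ 2 ^ (δ * (n : ℝ)) := by
  have hl : 0 < Real.log 2 := Real.log_pos one_lt_two
  set b := δ * Real.log 2 with hb
  have hb0 : 0 < b := mul_pos hδ hl
  obtain ⟨n₀, hn₀⟩ := exists_nat_ge (2 * a / b ^ 2)
  refine ⟨n₀, fun n hn => ?_⟩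
  have hn' : 2 * a / b ^ 2 ≤ (n : ℝ) := hn₀.trans (by exact_mod_cast hn)
  have h1 : 2 * a ≤ n * b ^ 2 := by
    rwa [div_le_iff₀ (by positivity)] at hn'
  have h2 : (2 : ℝ) ^ (δ * (n : ℝ)) = Real.exp (b * n) := by
    rw [Real.rpow_def_of_pos two_pos]
    congr 1
    rw [hb]; ring
  rw [h2]
  have hn0 : (0 : ℝ) ≤ n := Nat.cast_nonneg n
  have h3 := Real.quadratic_le_exp_of_nonneg (x := b * n) (by positivity)
  have h4 : a * n ≤ (b * n) ^ 2 / 2 := by nlinarith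
  have h5 : 0 ≤ b * n := by positivity
  linarith

theorem co2 : CO2_stmt := by
  intro k c' ε hk hε
  have hk' : (0 : ℝ) < k := by exact_mod_cast hk
  set δ : ℝ := ε * k / (2 * k + 2) / 2 with hδ
  have hδ0 : 0 < δ := by positivity
  obtain ⟨n₀, hn₀⟩ := exists_n (|c'| * (ε * k)) δ (by positivity) hδ0
  refine ⟨δ, hδ0, n₀, ?_⟩
  intro n hn i m T hm hT
  have h1 := hn₀ n hn
  have hi0 : (0 : ℝ) ≤ i := Nat.cast_nonneg i
  have hm0 : (0 : ℝ) ≤ m := Nat.cast_nonneg m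
  have hT0 : (0 : ℝ) ≤ T := Nat.cast_nonneg T
  have h2 : c' * ((m : ℝ) + i + 1) ≤ 2 ^ (δ * (n : ℝ)) := by
    calc c' * ((m : ℝ) + i + 1) ≤ |c'| * ((m : ℝ) + i + 1) :=
          mul_le_mul_of_nonneg_right (le_abs_self c') (by linarith)
      _ ≤ |c'| * (ε * k * n) := mul_le_mul_of_nonneg_left (by linarith) (abs_nonneg c')
      _ = |c'| * (ε * k) * n := by ring
      _ ≤ _ := h1
  have h3 : (2 : ℝ) ^ ((n : ℝ) + m + 4 * (i + 1)) ≤ 2 ^ ((n : ℝ) + ε * k * n) :=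
    Real.rpow_le_rpow_of_exponent_le one_le_two (by linarith)
  have h4 : (T : ℝ) ^ k ≤ 2 ^ ((1 - 2 * ε) * (n : ℝ) * k) := by
    calc (T : ℝ) ^ k ≤ (2 ^ ((1 - 2 * ε) * (n : ℝ))) ^ k := pow_le_pow_left₀ hT0 hT k
      _ = _ := by rw [← Real.rpow_natCast, ← Real.rpow_mul two_pos.le]
  have h5 : (2 : ℝ) ^ ((n : ℝ) + m + 4 * (i + 1)) * (T : ℝ) ^ k ≤
      2 ^ ((n : ℝ) + ε * k * n + (1 - 2 * ε) * (n : ℝ) * k) := by
    rw [Real.rpow_add two_pos ((n : ℝ) + ε * k * n)]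
    exact mul_le_mul h3 h4 (by positivity) (by positivity)
  have h6 : ((2 : ℝ) ^ ((n : ℝ) + m + 4 * (i + 1)) * (T : ℝ) ^ k) ^ (1 / (2 * (k : ℝ) + 2)) ≤
      2 ^ ((n : ℝ) / 2 - 2 * δ * n) := by
    calc ((2 : ℝ) ^ ((n : ℝ) + m + 4 * (i + 1)) * (T : ℝ) ^ k) ^ (1 / (2 * (k : ℝ) + 2))
        ≤ (2 ^ ((n : ℝ) + ε * k * n + (1 - 2 * ε) * (n : ℝ) * k)) ^ (1 / (2 * (k : ℝ) + 2)) :=
          Real.rpow_le_rpow (by positivity) h5 (by positivity)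
      _ = 2 ^ (((n : ℝ) + ε * k * n + (1 - 2 * ε) * (n : ℝ) * k) * (1 / (2 * (k : ℝ) + 2))) := by
          rw [← Real.rpow_mul two_pos.le]
      _ = 2 ^ ((n : ℝ) / 2 - 2 * δ * n) := by
          congr 1
          rw [hδ]
          field_simp
          ring
  calc c' * ((m : ℝ) + i + 1) * 2 ^ ((n : ℝ) / 2) *
      (2 ^ ((n : ℝ) + m + 4 * (i + 1)) * (T : ℝ) ^ k) ^ (1 / (2 * (k : ℝ) + 2))
      ≤ 2 ^ (δ * (n : ℝ)) * 2 ^ ((n : ℝ) / 2) * 2 ^ ((n : ℝ) / 2 - 2 * δ * n) := by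
        refine mul_le_mul ?_ h6 (by positivity) (by positivity)
        exact mul_le_mul_of_nonneg_right h2 (by positivity)
    _ = 2 ^ ((1 - δ) * (n : ℝ)) := by
        rw [← Real.rpow_add two_pos, ← Real.rpow_add two_pos]
        congr 1
        ring

end Pool.Agent.Helper2.NS5
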